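import Pool.Agent.W528.HG.Fin
import Pool.Agent.W528.HC.MU
import Pool.Agent.W924.HC.PR
import Pool.Agent.W340.HD.IN
import Pool.Agent.W108.HD.ONE
import Pool.Agent.W940.HD.GE
import Pool.Agent.W551.HD.GN
import Pool.Agent.W160.HD.AP
import Pool.Agent.W308.HG.AV
import Pool.Agent.W410.HG.PS

set_option autoImplicit false

namespace Pool.Agent.Results.MP_17a657_ag.ArtinSchreierCoverings

open Polynomial Pool.Agent.W528.HC Pool.Agent.W528.HD Pool.Agent.W528.HG

/-- **The Tate conjecture for divisors on superelliptic surfaces over Artin-Schreier curves.**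

Let `p` be a prime, `k` a finite field of characteristic `c = 1` modulo `p`, `r` prime to `p` and
`c`, with the `p r`-th roots of unity in `k`; let `f_1, ..., f_m` and `g_1, ..., g_h` be any
polynomials of degree at most `D` over `k`, `a_i > 0`, `2 D (a_1 + ... + a_m) < p`. Let `B` be the
curve `w_l ^ c - w_l = g_l(u ^ r)`, `l = 1, ..., h`, (assumed to be geometrically irreducible; it is
wildly ramified over the line, and its genus is unbounded) and let `X → B` be the smooth projective
surface with the generic fibre `y ^ p = ∏ (x - f_i(u ^ r)) ^ a_i`; let `J` be the Jacobian of the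
generic fibre. The L-function of `J` over `k(B)` is the product of the L-functions of the characters
`(j, s, lam)` of the covering, `0 < j < p`, `0 ≤ s < r`, `lam ∈ 𝔽_c ^ h`, which are polynomials
`∏ (1 - x T)` (Grothendieck): `IsAsL` holds with the multiset `A j s lam` of the `x`.

Theorem: (1) the product `asPoly` of these polynomials has the logarithmic coefficients given by the
numbers of points of the surface and of its base; (2) it does not vanish at `ζ / q` for any root
of unity `ζ`: the rank of `J(k'(B))` is `0`, the Tate-Shafarevich group and the Brauer group of `X`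
are finite and the Tate conjecture for divisors holds for `X`, over all finite extensions `k'` of
`k`. -/
theorem result (p r c D : ℕ) (hp : p.Prime) (hr : 0 < r) (hrp : r.Coprime p)
    [Fact c.Prime] (hcr : ¬ c ∣ r) (hpc : p ∣ c - 1)
    (k : Type) [Field k] [Fintype k] [CharP k c] (z : k) (hz : IsPrimitiveRoot z (p * r))
    (E : Type) [Field E] [CharZero E] [IsAlgClosed E] (μ ν : E) (hμ : IsPrimitiveRoot μ (p * r))
    (hν : IsPrimitiveRoot ν c) (m h : ℕ) (hD : 1 ≤ D)
    (f : Fin m → k[X]) (hf : ∀ i, (f i).natDegree ≤ D)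
    (a : Fin m → ℕ) (ha : ∀ i, 0 < a i) (ha2 : 2 * D * ∑ i, a i < p)
    (g : Fin h → k[X]) (hg : ∀ l, (g l).natDegree ≤ D)
    (A : ℕ → ℕ → (Fin h → Fin c) → Multiset E)
    (hA : ∀ j s lam, 0 < j → j < p → s < r → IsAsL k p r c f a g z μ ν j s lam (A j s lam)) :
    (∀ (L : Type) [Field L] [Fintype L] [Algebra k L],
      ∑ j ∈ Finset.Ico 1 p, ∑ s ∈ Finset.range r, ∑ lam : Fin h → Fin c,
          ((A j s lam).map fun x => x ^ Module.finrank k L).sum
        = (asPoints L p r c (fun i => (f i).map (algebraMap k L)) a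
              (fun l => (g l).map (algebraMap k L)) : E)
          - (Fintype.card L : E) * (asBase L r c (fun l => (g l).map (algebraMap k L)) : E)) ∧
    ∀ (ζ : E) (M : ℕ), 0 < M → ζ ^ M = 1 →
      (asPoly p r c h A).eval (ζ * (Fintype.card k : E)⁻¹) ≠ 0 :=
  fin_as Pool.Agent.W308.HG.AV.main Pool.Agent.W551.HD.GN.main
    (Pool.Agent.W108.HD.ONE.main Pool.Agent.W551.HD.GN.main Pool.Agent.W340.HD.IN.main
      Pool.Agent.W135.HB.SA.main)
    Pool.Agent.W940.HD.GE.main Pool.Agent.W160.HD.AP.main
    (Pool.Agent.W410.HG.PS.main Pool.Agent.W924.HC.PR.main mu_main)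
    hp hr hrp hcr hpc k hz hμ hν hD f hf a ha ha2 g hg A hA

end Pool.Agent.Results.MP_17a657_ag.ArtinSchreierCoverings
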